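import Pool.Agent.Y727.PSP.Stm

/-! Project PSP: iterated Cauchy-Schwarz (S_CS). -/

set_option autoImplicit false
set_option linter.unusedSectionVars false

open Finset

namespace Pool.Agent.Y674.PSP

open Pool.Agent.H602R3.DHJ Pool.Agent.Y727.PSP

lemma av_cs {X : Type} [Fintype X] (M r : X → ℝ) (hM : ∀ x, 0 ≤ M x) :
    av (fun x => M x * r x) ^ 2 ≤ av M * av (fun x => M x * r x ^ 2) := by
  unfold av
  rw [div_pow, div_mul_div_comm, ← sq]
  refine div_le_div_of_nonneg_right ?_ (by positivity)
  refine Finset.sum_sq_le_sum_mul_sum_of_sq_le_mul univ (fun i _ => hM i)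
    (fun i _ => mul_nonneg (hM i) (sq_nonneg _)) fun i _ => le_of_eq ?_
  ring

lemma av_fst {V : Type} [Fintype V] [Nonempty V] (ρ : V → ℝ) :
    av (fun v : V × V => ρ v.1) = av ρ := by
  rw [av_prod]
  simp only [av_const]

lemma av_sq {V : Type} [Fintype V] (ρ : V → ℝ) :
    av (fun v : V × V => ρ v.1 * ρ v.2) = av ρ ^ 2 := by
  rw [av_prod]
  simp only [av_mul]
  have : (fun x => ρ x * av ρ) = fun x => av ρ * ρ x := by
    funext x
    ring
  rw [this, av_mul, sq]

section

variable {J V : Type} [Fintype J] [DecidableEq J] [Fintype V] [Nonempty V]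

/-- averaging over one coordinate -/
lemma av_update (j : J) (F : (J → V × V) → ℝ) :
    av F = av (fun y => av (fun v => F (Function.update y j v))) := by
  rw [← av_prod (fun p : (J → V × V) × (V × V) => F (Function.update p.1 j p.2))]
  let e : ((J → V × V) × (V × V)) ≃ ((J → V × V) × (V × V)) :=
    { toFun := fun p => (Function.update p.1 j p.2, p.1 j)
      invFun := fun p => (Function.update p.1 j p.2, p.1 j)
      left_inv := fun p => by
        ext1
        · simp
        · simp
      right_inv := fun p => by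
        ext1
        · simp
        · simp }
  have h1 : av (fun p : (J → V × V) × (V × V) => F (Function.update p.1 j p.2)) =
      av (fun p => (fun q : (J → V × V) × (V × V) => F q.1) (e p)) := rfl
  rw [h1, av_equiv e (fun q : (J → V × V) × (V × V) => F q.1), av_prod]
  simp only [av_const]

/-- `F` depends on the coordinate `j` only through its first component -/
def Fst (j : J) (F : (J → V × V) → ℝ) : Prop := ∀ y v, F (Function.update y j ((y j).1, v)) = F y

/-- one Cauchy-Schwarz step -/
lemma step (j : J) (A M R : (J → V × V) → ℝ) (hA : ∀ y v, A (Function.update y j v) = A y)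
    (hM : ∀ y v, M (Function.update y j v) = M y) (hR : Fst j R) (hAM : ∀ y, |A y| ≤ M y)
    (B : ℝ) (hB : av M ≤ B) :
    av (fun y => A y * R y) ^ 2 ≤ B * |av (fun y => M y * (R y * R (sw {j} y)))| := by
  have hM0 : ∀ y, 0 ≤ M y := fun y => (abs_nonneg _).trans (hAM y)
  obtain ⟨ρ, hρ⟩ : ∃ ρ : (J → V × V) → V → ℝ, ρ = fun y a => R (Function.update y j (a, a)) :=
    ⟨_, rfl⟩
  have hR1 : ∀ y v, R (Function.update y j v) = ρ y v.1 := by
    intro y v
    rw [hρ]
    have h := hR (Function.update y j v) v.1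
    simp only [Function.update_self, Function.update_idem] at h
    exact h.symm
  have hsw : ∀ y (v : V × V), sw {j} (Function.update y j v) = Function.update y j v.swap := by
    intro y v
    funext i
    unfold sw
    by_cases hi : i = j
    · subst hi
      simp
    · simp [hi]
  have hR2 : ∀ y v, R (sw {j} (Function.update y j v)) = ρ y v.2 := by
    intro y v
    rw [hsw, hR1, Prod.fst_swap]
  have e1 : av (fun y => A y * R y) = av (fun y => A y * av (ρ y)) := by
    rw [av_update j]
    congr 1
    funext y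
    simp only [hA, hR1]
    rw [av_mul, av_fst]
  have e2 : av (fun y => M y * (R y * R (sw {j} y))) = av (fun y => M y * av (ρ y) ^ 2) := by
    rw [av_update j]
    congr 1
    funext y
    simp only [hM, hR1, hR2]
    rw [av_mul, av_sq]
  rw [e1, e2]
  have h1 : |av (fun y => A y * av (ρ y))| ≤ av (fun y => M y * |av (ρ y)|) := by
    rw [abs_le]
    constructor
    · have : -av (fun y => M y * |av (ρ y)|) = av (fun y => (-1) * (M y * |av (ρ y)|)) := by
        rw [av_mul]
        ring
      rw [this]
      refine av_mono fun y => ?_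
      have h2 := mul_le_mul_of_nonneg_right (hAM y) (abs_nonneg (av (ρ y)))
      rw [← abs_mul] at h2
      have := neg_abs_le (A y * av (ρ y))
      linarith
    · refine av_mono fun y => ?_
      have h2 := mul_le_mul_of_nonneg_right (hAM y) (abs_nonneg (av (ρ y)))
      rw [← abs_mul] at h2
      exact (le_abs_self _).trans h2
  have h3 : av (fun y => A y * av (ρ y)) ^ 2 ≤ av (fun y => M y * |av (ρ y)|) ^ 2 := by
    rw [← sq_abs]
    exact pow_le_pow_left₀ (abs_nonneg _) h1 2
  have h4 := av_cs M (fun y => |av (ρ y)|) hM0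
  simp only [sq_abs] at h4
  have h5 : 0 ≤ av (fun y => M y * av (ρ y) ^ 2) :=
    av_nonneg fun y => mul_nonneg (hM0 y) (sq_nonneg _)
  rw [abs_of_nonneg h5]
  exact h3.trans (h4.trans (mul_le_mul_of_nonneg_right hB h5))

/-! ### The products -/

lemma sw_insert {j : J} {ω : Finset J} (h : j ∉ ω) (y : J → V × V) :
    sw (insert j ω) y = sw ω (sw {j} y) := by
  funext i
  unfold sw
  by_cases hi : i = j
  · subst hi
    simp [h]
  · simp [hi]

lemma sw_update {j : J} {ω : Finset J} (h : j ∉ ω) (y : J → V × V) (v : V × V) :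
    sw ω (Function.update y j v) = Function.update (sw ω y) j v := by
  funext i
  unfold sw
  by_cases hi : i = j
  · subst hi
    simp [h]
  · simp [hi]

lemma sw_at {j : J} {ω : Finset J} (h : j ∉ ω) (y : J → V × V) : sw ω y j = y j := by
  unfold sw
  simp [h]

lemma Fst.sw {j : J} {F : (J → V × V) → ℝ} (hF : Fst j F) {ω : Finset J} (h : j ∉ ω) :
    Fst j (fun y => F (sw ω y)) := by
  intro y v
  have h1 := hF (Pool.Agent.Y727.PSP.sw ω y) v
  rw [sw_at h] at h1
  show F (Pool.Agent.Y727.PSP.sw ω (Function.update y j ((y j).1, v))) = _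
  rw [sw_update h]
  exact h1

lemma Fst.mul {j : J} {F G : (J → V × V) → ℝ} (hF : Fst j F) (hG : Fst j G) :
    Fst j (fun y => F y * G y) := by
  intro y v
  show F _ * G _ = F _ * G _
  rw [hF, hG]

lemma Fst.prod {j : J} {κ : Type} (s : Finset κ) {F : κ → (J → V × V) → ℝ}
    (hF : ∀ k ∈ s, Fst j (F k)) : Fst j (fun y => ∏ k ∈ s, F k y) := by
  intro y v
  exact prod_congr rfl fun k hk => hF k hk y v

/-- the integrand after the variables in `D₀` were doubled -/
noncomputable def Qf (D D₀ : Finset J) (h : (J → V × V) → ℝ) (g μ : J → (J → V × V) → ℝ)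
    (y : J → V × V) : ℝ :=
  (∏ ω ∈ D₀.powerset, h (sw ω y)) * (∏ i ∈ D₀, ∏ ω ∈ (D₀.erase i).powerset, μ i (sw ω y)) *
    ∏ i ∈ D \ D₀, ∏ ω ∈ D₀.powerset, g i (sw ω y)

end

/-- CS -/
theorem cs : S_CS := by
  intro J V _ _ _ _ D h g μ B hB h1 h2 h3 h4 h5 h6 h7
  have key : ∀ D₀ ⊆ D, |av (Qf D ∅ h g μ)| ^ (2 ^ D₀.card) ≤
      B ^ (2 ^ D₀.card - 1) * |av (Qf D D₀ h g μ)| := by
    intro D₀
    induction D₀ using Finset.induction_on with
    | empty =>
      intro _
      simp
    | insert j D₀ hj ih =>
      intro hD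
      have hjD : j ∈ D := hD (mem_insert_self _ _)
      have hD0 : D₀ ⊆ D := (subset_insert _ _).trans hD
      have ih := ih hD0
      have hω : ∀ ω ∈ D₀.powerset, j ∉ ω := fun ω hω hjω => hj (mem_powerset.1 hω hjω)
      have hω' : ∀ i, ∀ ω ∈ (D₀.erase i).powerset, j ∉ ω := fun i ω hω hjω =>
        hj (erase_subset _ _ (mem_powerset.1 hω hjω))
      -- the pieces
      set A : (J → V × V) → ℝ := fun y => ∏ ω ∈ D₀.powerset, g j (sw ω y) with hAdef
      set M : (J → V × V) → ℝ := fun y => ∏ ω ∈ D₀.powerset, μ j (sw ω y) with hMdef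
      set R : (J → V × V) → ℝ := fun y => (∏ ω ∈ D₀.powerset, h (sw ω y)) *
        (∏ i ∈ D₀, ∏ ω ∈ (D₀.erase i).powerset, μ i (sw ω y)) *
        ∏ i ∈ (D \ D₀).erase j, ∏ ω ∈ D₀.powerset, g i (sw ω y) with hRdef
      have hA : ∀ y v, A (Function.update y j v) = A y := by
        intro y v
        refine prod_congr rfl fun ω hω1 => ?_
        rw [sw_update (hω ω hω1)]
        exact h4 j hjD _ _
      have hM : ∀ y v, M (Function.update y j v) = M y := by
        intro y v
        refine prod_congr rfl fun ω hω1 => ?_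
        rw [sw_update (hω ω hω1)]
        exact h5 j hjD _ _
      have hR : Fst j R := by
        refine Fst.mul (Fst.mul ?_ ?_) ?_
        · exact Fst.prod _ fun ω hω1 => Fst.sw (fun y v => h1 j hjD y v) (hω ω hω1)
        · exact Fst.prod _ fun i hi => Fst.prod _ fun ω hω1 =>
            Fst.sw (fun y v => h3 i (hD0 hi) j hjD y v) (hω' i ω hω1)
        · exact Fst.prod _ fun i hi => Fst.prod _ fun ω hω1 =>
            Fst.sw (fun y v => h2 i (mem_sdiff.1 (mem_of_mem_erase hi)).1 j hjD y v) (hω ω hω1)
      have hAM : ∀ y, |A y| ≤ M y := by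
        intro y
        rw [hAdef]
        simp only [abs_prod]
        exact prod_le_prod (fun _ _ => abs_nonneg _) fun ω _ => h6 j hjD _
      have hMB : av M ≤ B := h7 j hjD D₀ fun i hi => mem_erase.2 ⟨fun h => hj (h ▸ hi), hD0 hi⟩
      have hst := step j A M R hA hM hR hAM B hMB
      have e1 : av (fun y => A y * R y) = av (Qf D D₀ h g μ) := by
        congr 1
        funext y
        unfold Qf
        rw [← mul_prod_erase (D \ D₀) (fun i => ∏ ω ∈ D₀.powerset, g i (sw ω y))
          (mem_sdiff.2 ⟨hjD, hj⟩)]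
        simp only [hAdef, hRdef]
        ring
      have e2 : av (fun y => M y * (R y * R (sw {j} y))) = av (Qf D (insert j D₀) h g μ) := by
        congr 1
        funext y
        unfold Qf
        have k1 : ∏ ω ∈ (insert j D₀).powerset, h (sw ω y) =
            (∏ ω ∈ D₀.powerset, h (sw ω y)) * ∏ ω ∈ D₀.powerset, h (sw ω (sw {j} y)) := by
          rw [prod_powerset_insert hj]
          congr 1
          exact prod_congr rfl fun ω hω1 => by rw [sw_insert (hω ω hω1)]
        have k2 : ∏ i ∈ D \ insert j D₀, ∏ ω ∈ (insert j D₀).powerset, g i (sw ω y) =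
            (∏ i ∈ (D \ D₀).erase j, ∏ ω ∈ D₀.powerset, g i (sw ω y)) *
              ∏ i ∈ (D \ D₀).erase j, ∏ ω ∈ D₀.powerset, g i (sw ω (sw {j} y)) := by
          rw [sdiff_insert, ← prod_mul_distrib]
          refine prod_congr rfl fun i _ => ?_
          rw [prod_powerset_insert hj]
          congr 1
          exact prod_congr rfl fun ω hω1 => by rw [sw_insert (hω ω hω1)]
        have k3 : ∏ i ∈ insert j D₀, ∏ ω ∈ ((insert j D₀).erase i).powerset, μ i (sw ω y) =
            M y * ((∏ i ∈ D₀, ∏ ω ∈ (D₀.erase i).powerset, μ i (sw ω y)) *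
              ∏ i ∈ D₀, ∏ ω ∈ (D₀.erase i).powerset, μ i (sw ω (sw {j} y))) := by
          rw [prod_insert hj, erase_insert hj, ← prod_mul_distrib]
          congr 1
          refine prod_congr rfl fun i hi => ?_
          have hij : j ≠ i := fun h => hj (h ▸ hi)
          rw [erase_insert_of_ne hij, prod_powerset_insert (fun h => hj (mem_of_mem_erase h))]
          congr 1
          exact prod_congr rfl fun ω hω1 => by rw [sw_insert (hω' i ω hω1)]
        rw [k1, k2, k3]
        simp only [hRdef]
        ring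
      rw [e1, e2] at hst
      rw [card_insert_of_notMem hj]
      have hB0 : 0 ≤ B := by linarith
      have hp : 1 ≤ 2 ^ D₀.card := Nat.one_le_two_pow
      calc |av (Qf D ∅ h g μ)| ^ (2 ^ (D₀.card + 1))
          = (|av (Qf D ∅ h g μ)| ^ (2 ^ D₀.card)) ^ 2 := by rw [← pow_mul, pow_succ]
        _ ≤ (B ^ (2 ^ D₀.card - 1) * |av (Qf D D₀ h g μ)|) ^ 2 :=
            pow_le_pow_left₀ (by positivity) ih 2
        _ = (B ^ (2 ^ D₀.card - 1)) ^ 2 * av (Qf D D₀ h g μ) ^ 2 := by rw [mul_pow, sq_abs]
        _ ≤ (B ^ (2 ^ D₀.card - 1)) ^ 2 * (B * |av (Qf D (insert j D₀) h g μ)|) :=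
            mul_le_mul_of_nonneg_left hst (by positivity)
        _ = B ^ (2 ^ (D₀.card + 1) - 1) * |av (Qf D (insert j D₀) h g μ)| := by
            rw [← mul_assoc, ← pow_mul, ← pow_succ]
            congr 2
            rw [pow_succ]
            omega
  have hfin := key D Subset.rfl
  have e1 : Qf D ∅ h g μ = fun y => h y * ∏ j ∈ D, g j y := by
    funext y
    unfold Qf
    have hs : sw (∅ : Finset J) y = y := by
      funext i
      unfold sw
      simp
    simp [hs]
  have e2 : Qf D D h g μ = fun y => (∏ ω ∈ D.powerset, h (sw ω y)) *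
      ∏ j ∈ D, ∏ ω ∈ (D.erase j).powerset, μ j (sw ω y) := by
    funext y
    unfold Qf
    simp
  rw [e1, e2] at hfin
  exact hfin

end Pool.Agent.Y674.PSP
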