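import Pool.Agent.Y727.PSP.Stm
import Pool.Agent.H305R2.MertensE
import Pool.Agent.W356.UBSel

/-! Project PSP: Selberg's weights on rough integers (S_SEL). -/

set_option autoImplicit false

open Finset Filter Topology

namespace Pool.Agent.Y674.PSP

open Pool.Agent.Y727.PSP
open Pool.Agent.W25.UB (GG)

/-- `∏_{p ≤ N} (1 - 1/p)⁻¹` -/
noncomputable def VV (N : ℕ) : ℝ := ∏ p ∈ (Icc 1 N).filter Nat.Prime, (1 - (p : ℝ)⁻¹)⁻¹

lemma VV_le : ∃ K : ℝ, 0 < K ∧ ∀ N : ℕ, 2 ≤ N → VV N ≤ K * Real.log N := by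
  have h := Pool.Agent.H305R2.mertens_three
  obtain ⟨K, hK⟩ := h.bddAbove_range
  refine ⟨max K 1, lt_max_of_lt_right one_pos, fun N hN => ?_⟩
  have hlog : 0 < Real.log N := Real.log_pos (by exact_mod_cast hN)
  have h1 : VV N / Real.log N ≤ K := hK ⟨N, rfl⟩
  rw [div_le_iff₀ hlog] at h1
  exact h1.trans (mul_le_mul_of_nonneg_right (le_max_left _ _) hlog.le)

/-- the reciprocals of the numbers composed of given primes -/
lemma fact_le (S : Finset ℕ) (hS : ∀ p ∈ S, p.Prime) (T : Finset ℕ)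
    (hT : ∀ m ∈ T, m ≠ 0 ∧ ∀ p : ℕ, p.Prime → p ∣ m → p ∈ S) :
    ∑ m ∈ T, (m : ℝ)⁻¹ ≤ ∏ p ∈ S, (1 - (p : ℝ)⁻¹)⁻¹ := by
  classical
  let f : ℕ →* ℝ :=
    { toFun := fun n => (n : ℝ)⁻¹
      map_one' := by simp
      map_mul' := fun a b => by simp [mul_comm] }
  have hf : ∀ {p : ℕ}, p.Prime → ‖f p‖ < 1 := by
    intro p hp
    show ‖((p : ℝ))⁻¹‖ < 1
    rw [norm_inv, Real.norm_natCast]
    exact inv_lt_one_of_one_lt₀ (by exact_mod_cast hp.one_lt)
  have h := (EulerProduct.summable_and_hasSum_factoredNumbers_prod_filter_prime_geometric hf S).2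
  have hSf : S.filter Nat.Prime = S := filter_true_of_mem hS
  rw [hSf] at h
  have hmem : ∀ m ∈ T, m ∈ Nat.factoredNumbers S := by
    intro m hm
    rw [Nat.mem_factoredNumbers']
    exact (hT m hm).2
  have h2 : ∑ m ∈ T.attach, f m.1 ≤ ∏ p ∈ S, (1 - f p)⁻¹ := by
    have h3 := sum_le_hasSum (T.attach.map ⟨fun m => (⟨m.1, hmem m.1 m.2⟩ : Nat.factoredNumbers S),
      fun a b hab => by
        have := congrArg Subtype.val hab
        exact Subtype.ext this⟩) (fun m _ => by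
          show (0 : ℝ) ≤ ((m.1 : ℝ))⁻¹
          positivity) h
    rw [sum_map] at h3
    exact h3
  rw [sum_attach T (fun m => f m)] at h2
  exact h2

lemma totient_sq (d : ℕ) : (1 : ℝ) / (Nat.totient d : ℝ) =
    (d : ℝ)⁻¹ * ∏ p ∈ d.primeFactors, (1 - (p : ℝ)⁻¹)⁻¹ := by
  have h : (Nat.totient d : ℝ) = d * ∏ p ∈ d.primeFactors, (1 - ((p : ℝ))⁻¹) := by
    have h := Nat.totient_eq_mul_prod_factors d
    have h2 := congrArg (fun x : ℚ => (x : ℝ)) h
    simpa using h2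
  rw [h, one_div, mul_inv, prod_inv_distrib]

/-- the primes in `(z, R]` -/
def PR (z R : ℕ) : Finset ℕ := (Ioc z R).filter Nat.Prime

lemma PR_prime (z R : ℕ) : ∀ p ∈ PR z R, p.Prime := fun p hp => (mem_filter.1 hp).2

/-- lower bound -/
lemma GG_lower {z R : ℕ} (hz : 2 ≤ z) (hR : z ≤ R) :
    Real.log R ≤ VV z * GG (PR z R) R := by
  classical
  -- the rough radical
  set rr : ℕ → ℕ := fun n => ∏ p ∈ n.primeFactors.filter (fun p => z < p), p with hrr
  have hpf : ∀ n : ℕ, ∀ p ∈ n.primeFactors.filter (fun p => z < p), p.Prime := fun n p hp =>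
    Nat.prime_of_mem_primeFactors (mem_filter.1 hp).1
  have hrpf : ∀ n : ℕ, (rr n).primeFactors = n.primeFactors.filter (fun p => z < p) := fun n =>
    Nat.primeFactors_prod (hpf n)
  have hrsq : ∀ n : ℕ, Squarefree (rr n) := fun n => Pool.Agent.W356.UBSel.sqf _ (hpf n)
  have hrdvd : ∀ n : ℕ, n ≠ 0 → rr n ∣ n := by
    intro n hn
    refine dvd_trans (prod_dvd_prod_of_subset _ _ _ (filter_subset _ _)) (Nat.prod_primeFactors_dvd n)
  have hmaps : ∀ n ∈ Icc 1 R, rr n ∈ Pool.Agent.W25.UB.sq (PR z R) R := by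
    intro n hn
    rw [mem_Icc] at hn
    have hn0 : n ≠ 0 := by omega
    have hle : rr n ≤ R := (Nat.le_of_dvd (by omega) (hrdvd n hn0)).trans hn.2
    unfold Pool.Agent.W25.UB.sq
    rw [mem_filter, mem_Icc]
    refine ⟨⟨Nat.pos_of_ne_zero (hrsq n).ne_zero, hle⟩, hrsq n, fun p hp hpd => ?_⟩
    have h1 : p ∈ (rr n).primeFactors := Nat.mem_primeFactors.2 ⟨hp, hpd, (hrsq n).ne_zero⟩
    rw [hrpf, mem_filter] at h1
    unfold PR
    rw [mem_filter, mem_Ioc]
    exact ⟨⟨h1.2, (Nat.le_of_dvd (Nat.pos_of_ne_zero (hrsq n).ne_zero) hpd).trans hle⟩, hp⟩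
  have h1 : Real.log R ≤ ∑ n ∈ Icc 1 R, (n : ℝ)⁻¹ := by
    have h := log_add_one_le_harmonic R
    have h2 : Real.log R ≤ Real.log (R + 1) :=
      Real.log_le_log (by exact_mod_cast (by omega : 0 < R)) (by linarith)
    rw [harmonic_eq_sum_Icc] at h
    push_cast at h
    exact h2.trans (by exact_mod_cast h)
  refine h1.trans ?_
  rw [← sum_fiberwise_of_maps_to hmaps, GG, mul_sum]
  refine sum_le_sum fun d hd => ?_
  unfold Pool.Agent.W25.UB.sq at hd
  rw [mem_filter, mem_Icc] at hd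
  obtain ⟨⟨hd1, hd2⟩, hd3, hd4⟩ := hd
  have hd0 : d ≠ 0 := by omega
  have hdz : ∀ p ∈ d.primeFactors, z < p := by
    intro p hp
    have := hd4 p (Nat.prime_of_mem_primeFactors hp) (Nat.dvd_of_mem_primeFactors hp)
    exact (mem_Ioc.1 (mem_filter.1 this).1).1
  -- the fibre
  set F : Finset ℕ := (Icc 1 R).filter (fun n => rr n = d) with hF
  have hFd : ∀ n ∈ F, d ∣ n ∧ n ≠ 0 := by
    intro n hn
    rw [hF, mem_filter, mem_Icc] at hn
    have hn0 : n ≠ 0 := by omega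
    exact ⟨hn.2 ▸ hrdvd n hn0, hn0⟩
  have h2 : ∑ n ∈ F, (n : ℝ)⁻¹ = (d : ℝ)⁻¹ * ∑ m ∈ F.image (fun n => n / d), (m : ℝ)⁻¹ := by
    rw [sum_image, mul_sum]
    · refine sum_congr rfl fun n hn => ?_
      obtain ⟨⟨m, rfl⟩, _⟩ := hFd n hn
      rw [Nat.mul_div_cancel_left _ (by omega)]
      push_cast
      rw [mul_inv]
    · intro a ha b hb hab
      obtain ⟨h3, _⟩ := hFd a ha
      obtain ⟨h4, _⟩ := hFd b hb
      have hab' : a / d = b / d := hab
      rw [← Nat.div_mul_cancel h3, ← Nat.div_mul_cancel h4, hab']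
  have h3 : ∑ m ∈ F.image (fun n => n / d), (m : ℝ)⁻¹ ≤
      ∏ p ∈ ((Icc 1 z).filter Nat.Prime) ∪ d.primeFactors, (1 - (p : ℝ)⁻¹)⁻¹ := by
    refine fact_le _ ?_ _ ?_
    · intro p hp
      rw [mem_union, mem_filter] at hp
      rcases hp with hp | hp
      · exact hp.2
      · exact Nat.prime_of_mem_primeFactors hp
    · intro m hm
      rw [mem_image] at hm
      obtain ⟨n, hn, rfl⟩ := hm
      obtain ⟨⟨m, rfl⟩, h4⟩ := hFd n hn
      rw [Nat.mul_div_cancel_left _ (by omega)]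
      refine ⟨fun h => h4 (by rw [h, mul_zero]), fun p hp hpm => ?_⟩
      rw [mem_union, mem_filter, mem_Icc]
      by_cases hpz : p ≤ z
      · exact Or.inl ⟨⟨hp.one_lt.le, hpz⟩, hp⟩
      · right
        rw [hF, mem_filter] at hn
        rw [← hn.2, hrpf, mem_filter]
        exact ⟨Nat.mem_primeFactors.2 ⟨hp, dvd_mul_of_dvd_right hpm _, h4⟩, by omega⟩
  rw [prod_union] at h3
  · rw [h2, totient_sq d]
    calc (d : ℝ)⁻¹ * ∑ m ∈ F.image (fun n => n / d), (m : ℝ)⁻¹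
        ≤ (d : ℝ)⁻¹ * ((∏ p ∈ (Icc 1 z).filter Nat.Prime, (1 - (p : ℝ)⁻¹)⁻¹) *
          ∏ p ∈ d.primeFactors, (1 - (p : ℝ)⁻¹)⁻¹) := mul_le_mul_of_nonneg_left h3 (by positivity)
      _ = VV z * ((d : ℝ)⁻¹ * ∏ p ∈ d.primeFactors, (1 - (p : ℝ)⁻¹)⁻¹) := by
          unfold VV
          ring
  · rw [disjoint_left]
    intro p hp hp2
    rw [mem_filter, mem_Icc] at hp
    have := hdz p hp2
    omega

/-- upper bound -/
lemma GG_upper {z R : ℕ} : GG (PR z R) R ≤ VV R := by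
  classical
  have hone : ∀ p : ℕ, p.Prime → (1 - (p : ℝ)⁻¹)⁻¹ = 1 + ((p : ℝ) - 1)⁻¹ := by
    intro p hp
    have h1 : (1 : ℝ) < p := by exact_mod_cast hp.one_lt
    have h2 : (p : ℝ) - 1 ≠ 0 := by linarith
    have h3 : (p : ℝ) ≠ 0 := by linarith
    field_simp
    ring
  have h0 : VV R = ∑ T ∈ ((Icc 1 R).filter Nat.Prime).powerset, ∏ p ∈ T, ((p : ℝ) - 1)⁻¹ := by
    unfold VV
    rw [← prod_one_add]
    exact prod_congr rfl fun p hp => hone p (mem_filter.1 hp).2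
  rw [h0]
  unfold GG
  have h1 : ∀ d ∈ Pool.Agent.W25.UB.sq (PR z R) R, (1 : ℝ) / (Nat.totient d : ℝ) =
      ∏ p ∈ d.primeFactors, ((p : ℝ) - 1)⁻¹ := by
    intro d hd
    unfold Pool.Agent.W25.UB.sq at hd
    rw [mem_filter] at hd
    rw [totient_sq d]
    have h2 : (d : ℝ)⁻¹ = ∏ p ∈ d.primeFactors, ((p : ℝ))⁻¹ := by
      conv_lhs => rw [← Nat.prod_primeFactors_of_squarefree hd.2.1]
      push_cast
      rw [prod_inv_distrib]
    rw [h2, ← prod_mul_distrib]
    refine prod_congr rfl fun p hp => ?_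
    have hpp := Nat.prime_of_mem_primeFactors hp
    have h3 : (1 : ℝ) < p := by exact_mod_cast hpp.one_lt
    have h4 : (p : ℝ) - 1 ≠ 0 := by linarith
    have h5 : (p : ℝ) ≠ 0 := by linarith
    have h6 : 1 - (p : ℝ)⁻¹ ≠ 0 := by
      have : (p : ℝ)⁻¹ < 1 := inv_lt_one_of_one_lt₀ h3
      linarith
    rw [← mul_inv, mul_sub, mul_one, mul_inv_cancel₀ h5]
  rw [sum_congr rfl h1, ← sum_image (s := Pool.Agent.W25.UB.sq (PR z R) R)
    (g := fun d : ℕ => d.primeFactors) (f := fun T : Finset ℕ => ∏ p ∈ T, ((p : ℝ) - 1)⁻¹)]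
  · refine sum_le_sum_of_subset_of_nonneg ?_ ?_
    · intro T hT
      rw [mem_image] at hT
      obtain ⟨d, hd, rfl⟩ := hT
      unfold Pool.Agent.W25.UB.sq at hd
      rw [mem_filter, mem_Icc] at hd
      rw [mem_powerset]
      intro p hp
      have h2 := hd.2.2 p (Nat.prime_of_mem_primeFactors hp) (Nat.dvd_of_mem_primeFactors hp)
      unfold PR at h2
      rw [mem_filter, mem_Ioc] at h2
      rw [mem_filter, mem_Icc]
      exact ⟨⟨h2.2.one_lt.le, h2.1.2⟩, h2.2⟩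
    · intro T hT _
      rw [mem_powerset] at hT
      refine prod_nonneg fun p hp => ?_
      have h3 : (1 : ℝ) < p := by exact_mod_cast (mem_filter.1 (hT hp)).2.one_lt
      exact inv_nonneg.2 (by linarith)
  · intro a ha b hb hab
    have hab' : a.primeFactors = b.primeFactors := hab
    rw [mem_coe] at ha hb
    unfold Pool.Agent.W25.UB.sq at ha hb
    rw [mem_filter] at ha hb
    rw [← Nat.prod_primeFactors_of_squarefree ha.2.1, ← Nat.prod_primeFactors_of_squarefree hb.2.1,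
      hab']

/-- SEL -/
theorem sel : S_SEL := by
  classical
  obtain ⟨K, hK, hV⟩ := VV_le
  refine ⟨1 / K, K, by positivity, hK, fun z R hz hR => ?_⟩
  have hP := PR_prime z R
  have hR1 : 1 ≤ R := by omega
  have hlz : 0 < Real.log z := Real.log_pos (by exact_mod_cast hz)
  have hlR : 0 < Real.log R := Real.log_pos (by exact_mod_cast (by omega : 1 < R))
  have hlo := GG_lower hz hR
  have hup := GG_upper (z := z) (R := R)
  have hVz := hV z hz
  have hVR := hV R (by omega)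
  have hVz0 : 0 < VV z := by
    unfold VV
    refine prod_pos fun p hp => inv_pos.2 ?_
    have h3 : (1 : ℝ) < p := by exact_mod_cast (mem_filter.1 hp).2.one_lt
    have : (p : ℝ)⁻¹ < 1 := inv_lt_one_of_one_lt₀ h3
    linarith
  have hG0 : 0 < GG (PR z R) R := by
    by_contra h
    rw [not_lt] at h
    have := mul_nonpos_of_nonneg_of_nonpos hVz0.le h
    linarith
  have hq : qf R (Pool.Agent.W356.UBSel.lam (PR z R) hP R) = 1 / GG (PR z R) R := by
    have h1 := Pool.Agent.W356.UBSel.quad (PR z R) hP R hR1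
    have h2 := Pool.Agent.W356.UBSel.sum_cf (PR z R) hP R (fun d => ((d : ℝ))⁻¹)
    simp only [← div_eq_mul_inv] at h2
    rw [h2] at h1
    rw [← h1, sum_product]
    unfold qf
    have hs : Pool.Agent.W25.UB.sq (PR z R) R ⊆ Icc 1 R := fun d hd =>
      Pool.Agent.W356.UBSel.sq_sub (PR z R) R d hd
    rw [← sum_subset hs]
    · refine sum_congr rfl fun d _ => ?_
      rw [← sum_subset hs]
      intro e _ he
      rw [Pool.Agent.W356.UBSel.lam_zero (PR z R) hP R e he]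
      simp
    · intro d _ hd
      refine sum_eq_zero fun e _ => ?_
      rw [Pool.Agent.W356.UBSel.lam_zero (PR z R) hP R d hd]
      simp
  refine ⟨Pool.Agent.W356.UBSel.lam (PR z R) hP R, ?_, ?_, ?_, ?_, ?_, ?_⟩
  · exact Pool.Agent.W356.UBSel.lam_one _ hP R hR1
  · exact fun d => Pool.Agent.W356.UBSel.lam_le _ hP R d hR1
  · intro d hd
    have h1 : d ∈ Pool.Agent.W25.UB.sq (PR z R) R := by
      by_contra h
      exact hd (Pool.Agent.W356.UBSel.lam_zero _ hP R d h)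
    unfold Pool.Agent.W25.UB.sq at h1
    rw [mem_filter, mem_Icc] at h1
    refine ⟨h1.1.1, h1.1.2, h1.2.1, fun p hp hpd => ?_⟩
    have h2 := h1.2.2 p hp hpd
    unfold PR at h2
    exact (mem_Ioc.1 (mem_filter.1 h2).1).1
  · rw [hq]
    positivity
  · rw [hq, one_div_mul_eq_div, div_le_iff₀ hG0, one_div_mul_eq_div, div_le_iff₀ hK]
    calc Real.log R ≤ VV z * GG (PR z R) R := hlo
      _ ≤ K * Real.log z * GG (PR z R) R := mul_le_mul_of_nonneg_right hVz hG0.le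
      _ = Real.log z * GG (PR z R) R * K := by ring
  · rw [hq, one_div_mul_eq_div, le_div_iff₀ hG0, one_mul]
    exact hup.trans hVR

end Pool.Agent.Y674.PSP
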